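import Pool.Agent.K9h55.QD.Full

set_option autoImplicit false

namespace Pool.Agent.Results.MP_a717c1_al.DirectSquareAllGraphs

open Pool.Agent.H741.QS

/-- The direct (tensor) product of two graphs. -/
def directProduct {V W : Type} (X : SimpleGraph V) (Y : SimpleGraph W) : SimpleGraph (V × W) where
  Adj a b := X.Adj a.1 b.1 ∧ Y.Adj a.2 b.2
  symm := ⟨fun _ _ h => ⟨h.1.symm, h.2.symm⟩⟩
  loopless := ⟨fun a h => X.loopless.irrefl a.1 h.1⟩

/-- The direct square of a finite graph `X` has no quantum symmetry if and only if `X` has at most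
one vertex, or `X` is connected and not bipartite, distinct vertices of `X` have distinct
neighbourhoods, and `X` has no quantum symmetry. -/
theorem result (V : Type) [Fintype V] (X : SimpleGraph V) :
    NoQuantumSymmetry (directProduct X X) ↔
      (Fintype.card V ≤ 1 ∨
        (X.Connected ∧ ¬ X.Colorable 2 ∧ (∀ x y, (∀ z, X.Adj x z ↔ X.Adj y z) → x = y) ∧
          NoQuantumSymmetry X)) := by
  rcases isEmpty_or_nonempty V with hV | hV
  · constructor
    · intro _
      left
      rw [Fintype.card_eq_zero]
      exact Nat.zero_le 1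
    · intro _ A _ u _ _ x
      exact hV.elim x.1
  · have h0 : 0 < Fintype.card V := Fintype.card_pos
    have h1 : NoQuantumSymmetry (directProduct X X) ↔ (Fintype.card V = 1 ∨
        (X.Connected ∧ ¬ X.Colorable 2 ∧ (∀ x y, (∀ z, X.Adj x z ↔ X.Adj y z) → x = y) ∧
          NoQuantumSymmetry X)) := Pool.Agent.K9h55.QD.direct_square V X
    rw [h1]
    constructor
    · rintro (h | h)
      · exact Or.inl h.le
      · exact Or.inr h
    · rintro (h | h)
      · exact Or.inl (by omega)
      · exact Or.inr h

end Pool.Agent.Results.MP_a717c1_al.DirectSquareAllGraphs
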